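import Mathlib

/-!
# Cohomological dimension of mixed potentially semistable representations: one number field suffices

Fix a prime `ℓ`. For a number field `k` let `𝒞_k` be the category of the question. Question Q1 for `k` is
`Q1 D k`: all Yoneda groups `Ext^n(V, W)`, `n ≥ 2`, vanish, and some group `Ext^1` is not zero.

**Theorem.** Let `k₀` be a number field. The following are equivalent.

1. Question Q1 for all number fields `k` (and the prime `ℓ`).
2. Question Q1 for `k₀`.
3. `Ext^2(ℚ_ℓ, V) = 0` in `𝒞_{k₀}` for all simple `V`.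
4. `Ext^2(ℚ_ℓ, V) = 0` in `𝒞_ℚ` for all simple `V`.
5. For every exact sequence `0 → V → W → U → 0` in `𝒞_{k₀}` with a simple object `V`, every extension of `ℚ_ℓ`
   by `U` in `𝒞_{k₀}` comes from an extension of `ℚ_ℓ` by `W` in `𝒞_{k₀}`.

Simple objects are pure of some weight. The known facts used (`IsSetting`) are the long exact sequences of
Yoneda `Ext` and their effaceability, `Ext^n(V, W) = Ext^n(ℚ_ℓ, V^∨ ⊗ W)`, and restriction and induction for
`k / ℚ`: these are exact functors between `𝒞_ℚ` and `𝒞_k` (an induced representation is mixed and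
potentially semistable), adjoint to each other, and `V` is a direct summand of the representation induced
from its restriction. `Ext^1(ℚ_ℓ, ℚ_ℓ(1))` contains the Kummer classes of `k^×` and is not zero.
-/

set_option autoImplicit false

namespace Pool.Agent.Results.MP_5968e7_ag.OneField

/-- The categories `𝒞_k` and their Yoneda `Ext` groups. -/
structure Setting where
  /-- number fields -/
  Fld : Type
  /-- the rational field -/
  Q : Fld
  /-- objects of `𝒞_k` -/
  Obj : Fld → Type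
  /-- `ℚ_ℓ` -/
  one : ∀ {k : Fld}, Obj k
  /-- `V^∨ ⊗ W` -/
  hom : ∀ {k : Fld}, Obj k → Obj k → Obj k
  /-- the length -/
  length : ∀ {k : Fld}, Obj k → ℕ
  /-- simple objects -/
  Simple : ∀ {k : Fld}, Obj k → Prop
  /-- Yoneda `Ext` -/
  Ext : ∀ {k : Fld}, ℕ → Obj k → Obj k → Type
  [grp : ∀ {k : Fld} (n : ℕ) (V W : Obj k), AddCommGroup (Ext n V W)]
  /-- short exact sequences `0 → A → B → C → 0` -/
  Ses : ∀ {k : Fld}, Obj k → Obj k → Obj k → Type
  /-- `Ext^n(V, A) → Ext^n(V, B)` -/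
  inc : ∀ {k : Fld} {A B C : Obj k}, Ses A B C → ∀ (n : ℕ) (V : Obj k), Ext n V A →+ Ext n V B
  /-- `Ext^n(V, B) → Ext^n(V, C)` -/
  pro : ∀ {k : Fld} {A B C : Obj k}, Ses A B C → ∀ (n : ℕ) (V : Obj k), Ext n V B →+ Ext n V C
  /-- `Ext^n(V, C) → Ext^(n+1)(V, A)` -/
  con : ∀ {k : Fld} {A B C : Obj k}, Ses A B C → ∀ (n : ℕ) (V : Obj k),
    Ext n V C →+ Ext (n + 1) V A
  /-- restriction from `ℚ` to `k` -/
  res : ∀ k : Fld, Obj Q → Obj k
  /-- induction from `k` to `ℚ` -/
  ind : ∀ k : Fld, Obj k → Obj Q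

attribute [instance] Setting.grp

/-- The known facts. -/
structure IsSetting (D : Setting) : Prop where
  exactA : ∀ {k : D.Fld} {A B C : D.Obj k} (s : D.Ses A B C) (n : ℕ) (V : D.Obj k)
    (x : D.Ext (n + 1) V A), D.inc s (n + 1) V x = 0 ↔ ∃ y, D.con s n V y = x
  exactB : ∀ {k : D.Fld} {A B C : D.Obj k} (s : D.Ses A B C) (n : ℕ) (V : D.Obj k)
    (x : D.Ext n V B), D.pro s n V x = 0 ↔ ∃ y, D.inc s n V y = x
  exactC : ∀ {k : D.Fld} {A B C : D.Obj k} (s : D.Ses A B C) (n : ℕ) (V : D.Obj k)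
    (x : D.Ext n V C), D.con s n V x = 0 ↔ ∃ y, D.pro s n V y = x
  /-- every class becomes zero in a larger object -/
  efface : ∀ {k : D.Fld} (n : ℕ) (V A : D.Obj k) (x : D.Ext (n + 1) V A),
    ∃ (B C : D.Obj k) (s : D.Ses A B C), D.inc s (n + 1) V x = 0
  /-- `Ext^n(V, W) = Ext^n(ℚ_ℓ, V^∨ ⊗ W)` -/
  hom : ∀ {k : D.Fld} (n : ℕ) (V W : D.Obj k), Nonempty (D.Ext n V W ≃ D.Ext n D.one (D.hom V W))
  zero : ∀ {k : D.Fld} (n : ℕ) (V A : D.Obj k), D.length A = 0 → Subsingleton (D.Ext n V A)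
  /-- a nonzero object has a simple subobject -/
  socle : ∀ {k : D.Fld} (B : D.Obj k), 0 < D.length B → ∃ (A C : D.Obj k), D.Simple A ∧
    D.length C < D.length B ∧ Nonempty (D.Ses A B C)
  kummer : ∀ k : D.Fld, ∃ V W : D.Obj k, Nontrivial (D.Ext 1 V W)
  /-- adjunction of restriction and induction -/
  shapiro : ∀ (k : D.Fld) (n : ℕ) (W : D.Obj k),
    Nonempty (D.Ext n D.one W ≃ D.Ext n D.one (D.ind k W))
  /-- a representation is a summand of the one induced from its restriction -/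
  summand : ∀ (k : D.Fld) (n : ℕ) (V : D.Obj D.Q), ∃ f : D.Ext n D.one V →
    D.Ext n D.one (D.ind k (D.res k V)), Function.Injective f

variable {D : Setting}

/-- Question Q1 for the number field `k`. -/
def Q1 (D : Setting) (k : D.Fld) : Prop :=
  (∀ (n : ℕ) (V W : D.Obj k), 2 ≤ n → Subsingleton (D.Ext n V W)) ∧
    ∃ V W : D.Obj k, Nontrivial (D.Ext 1 V W)

lemma devissage (h : IsSetting D) {k : D.Fld} {n : ℕ} {V : D.Obj k}
    (h1 : ∀ S : D.Obj k, D.Simple S → Subsingleton (D.Ext n V S)) :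
    ∀ (l : ℕ) (B : D.Obj k), D.length B ≤ l → Subsingleton (D.Ext n V B) := by
  intro l
  induction l with
  | zero => exact fun B hB => h.zero n V B (Nat.le_zero.mp hB)
  | succ l ih =>
    intro B hB
    rcases Nat.eq_zero_or_pos (D.length B) with h0 | h0
    · exact h.zero n V B h0
    · obtain ⟨A, C, hA, hC, ⟨s⟩⟩ := h.socle B h0
      have h2 := h1 A hA
      have h3 := ih C (by omega)
      refine ⟨fun x y => ?_⟩
      obtain ⟨z, hz⟩ := (h.exactB s n V (x - y)).mp (Subsingleton.elim _ _)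
      rw [Subsingleton.elim z 0, map_zero] at hz
      exact (sub_eq_zero.mp hz.symm)

lemma ext_two (h : IsSetting D) {k : D.Fld}
    (h1 : ∀ S : D.Obj k, D.Simple S → Subsingleton (D.Ext 2 D.one S)) (V W : D.Obj k) :
    Subsingleton (D.Ext 2 V W) := by
  obtain ⟨e⟩ := h.hom 2 V W
  have := devissage h h1 _ (D.hom V W) le_rfl
  exact e.subsingleton

lemma ext_all (h : IsSetting D) {k : D.Fld}
    (h1 : ∀ V W : D.Obj k, Subsingleton (D.Ext 2 V W)) :
    ∀ (n : ℕ) (V W : D.Obj k), 2 ≤ n → Subsingleton (D.Ext n V W) := by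
  intro n
  induction n with
  | zero => intro V W hn; omega
  | succ n ih =>
    intro V W hn
    rcases Nat.lt_or_ge n 2 with h2 | h2
    · obtain rfl : n = 1 := by omega
      exact h1 V W
    · refine subsingleton_of_forall_eq 0 fun x => ?_
      obtain ⟨B, C, s, hs⟩ := h.efface n V W x
      obtain ⟨y, hy⟩ := (h.exactA s n V x).mp hs
      have := ih V C h2
      rw [← hy, Subsingleton.elim y 0, map_zero]

lemma q1_iff_simple (h : IsSetting D) (k : D.Fld) :
    Q1 D k ↔ ∀ S : D.Obj k, D.Simple S → Subsingleton (D.Ext 2 D.one S) :=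
  ⟨fun h1 S _ => h1.1 2 _ S le_rfl, fun h1 => ⟨ext_all h (ext_two h h1), h.kummer k⟩⟩

lemma q1_of_Q (h : IsSetting D) (h1 : Q1 D D.Q) (k : D.Fld) : Q1 D k := by
  refine (q1_iff_simple h k).mpr fun S _ => ?_
  obtain ⟨e⟩ := h.shapiro k 2 S
  have := h1.1 2 D.one (D.ind k S) le_rfl
  exact e.subsingleton

lemma q1_Q_of (h : IsSetting D) (k : D.Fld) (h1 : Q1 D k) : Q1 D D.Q := by
  refine (q1_iff_simple h D.Q).mpr fun S _ => ?_
  obtain ⟨f, hf⟩ := h.summand k 2 S
  obtain ⟨e⟩ := h.shapiro k 2 (D.res k S)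
  have := h1.1 2 D.one (D.res k S) le_rfl
  have := e.symm.subsingleton
  exact hf.subsingleton

lemma simple_iff_lift (h : IsSetting D) (k : D.Fld) :
    (∀ S : D.Obj k, D.Simple S → Subsingleton (D.Ext 2 D.one S)) ↔
      ∀ (V W U : D.Obj k) (s : D.Ses V W U), D.Simple V →
        Function.Surjective (D.pro s 1 D.one) := by
  constructor
  · intro h1 V W U s hV x
    have := h1 V hV
    exact (h.exactC s 1 D.one x).mp (Subsingleton.elim _ _)
  · intro h1 S hS
    refine subsingleton_of_forall_eq 0 fun x => ?_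
    obtain ⟨B, C, s, hs⟩ := h.efface 1 D.one S x
    obtain ⟨y, rfl⟩ := (h.exactA s 1 D.one x).mp hs
    exact (h.exactC s 1 D.one y).mpr (h1 _ _ _ s hS y)

/-- **One number field suffices.** See the explanations above. -/
theorem result (h : IsSetting D) (k₀ : D.Fld) : List.TFAE [
    ∀ k : D.Fld, Q1 D k,
    Q1 D k₀,
    ∀ V : D.Obj k₀, D.Simple V → Subsingleton (D.Ext 2 D.one V),
    ∀ V : D.Obj D.Q, D.Simple V → Subsingleton (D.Ext 2 D.one V),
    ∀ (V W U : D.Obj k₀) (s : D.Ses V W U), D.Simple V →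
      Function.Surjective (D.pro s 1 D.one)] := by
  tfae_have 1 → 2 := fun h1 => h1 k₀
  tfae_have 2 → 4 := fun h1 => (q1_iff_simple h D.Q).mp (q1_Q_of h k₀ h1)
  tfae_have 4 → 1 := fun h1 => q1_of_Q h ((q1_iff_simple h D.Q).mpr h1)
  tfae_have 2 ↔ 3 := q1_iff_simple h k₀
  tfae_have 3 ↔ 5 := simple_iff_lift h k₀
  tfae_finish

end Pool.Agent.Results.MP_5968e7_ag.OneField
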